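import Pool.Agent.W23.DC.All

/-!
Dense sets of primes and almost primes, with boundedly many exceptional shifts.

For every set `A` of at least `δ X / log X` primes up to `X` and all but boundedly many (`K(δ, ε)`)
of the integers `N` with `|N| ≤ 2 X`, for a positive proportion of the `p ∈ A` the number `|N - p|`
is `m s`, `m ≤ X^ε`, `s` a prime or a product of two primes, without prime factors up to `X^(1/7)`.
For an infinite set `A` of primes of positive lower relative density: for all but boundedly many of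
ALL integers `h` there are infinitely many `p ∈ A` for which `p + h` has this form.

The finite form is the theorem `Pool.Agent.W23.DC.dense_almost_prime` of the starting files
(coordinated by helper23 of an earlier round, never handed in).
-/

set_option autoImplicit false

namespace Pool.Agent.Results.MP_68a45e_nt.DenseSetsAlmostPrimes

open Finset Filter

/-- the `p ∈ A` with `|N - p| = m s`, `m ≤ X^ε`, `s` a prime or a product of two primes, all prime
factors of `s` greater than `X^(1/7)` -/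
def good (A : Finset ℕ) (N : ℤ) (X : ℕ) (ε : ℝ) : Set ℕ :=
  {p : ℕ | p ∈ A ∧ ∃ m s : ℕ, (N - (p : ℤ)).natAbs = m * s ∧ (m : ℝ) ≤ (X : ℝ) ^ ε ∧ 1 < s ∧
    s.primeFactorsList.length ≤ 2 ∧ ∀ q : ℕ, q.Prime → q ∣ s → (X : ℝ) ^ (1 / 7 : ℝ) < q}

/-- the `p ∈ A` with `|p + h| = m s`, `m ≤ p^ε`, `s` a prime or a product of two primes, all prime
factors of `s` greater than `p^(1/7)` -/
def goodShift (A : Set ℕ) (h : ℤ) (ε : ℝ) : Set ℕ :=
  {p : ℕ | p ∈ A ∧ ∃ m s : ℕ, ((p : ℤ) + h).natAbs = m * s ∧ (m : ℝ) ≤ (p : ℝ) ^ ε ∧ 1 < s ∧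
    s.primeFactorsList.length ≤ 2 ∧ ∀ q : ℕ, q.Prime → q ∣ s → (p : ℝ) ^ (1 / 7 : ℝ) < q}

theorem finite_form (δ ε : ℝ) (hδ : 0 < δ) (hε : 0 < ε) :
    ∃ (c : ℝ) (K : ℕ), 0 < c ∧ ∀ X : ℕ, 2 ≤ X → ∀ A : Finset ℕ,
      (∀ p ∈ A, p.Prime ∧ p ≤ X) → δ * X / Real.log X ≤ A.card →
      {N : ℤ | |N| ≤ 2 * X ∧ ((good A N X ε).ncard : ℝ) < c * A.card}.Finite ∧
      {N : ℤ | |N| ≤ 2 * X ∧ ((good A N X ε).ncard : ℝ) < c * A.card}.ncard ≤ K := by
  classical
  obtain ⟨c, K, hc, H⟩ := Pool.Agent.W23.DC.dense_almost_prime δ ε hδ hε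
  refine ⟨c, K, hc, ?_⟩
  intro X hX A hA hAc
  have h1 := H X hX A hA hAc
  have heq : {N : ℤ | |N| ≤ 2 * X ∧ ((good A N X ε).ncard : ℝ) < c * A.card} =
      ((Icc (-(2 * X : ℤ)) (2 * X)).filter (fun N : ℤ => ((A.filter (fun p : ℕ =>
        ∃ m s : ℕ, (N - p).natAbs = m * s ∧ (m : ℝ) ≤ (X : ℝ) ^ ε ∧ 1 < s ∧
          s.primeFactorsList.length ≤ 2 ∧
          ∀ q ∈ s.primeFactors, (X : ℝ) ^ (1 / 7 : ℝ) < q)).card : ℝ) < c * A.card) :
          Finset ℤ) := by
    ext N
    have hg : (good A N X ε).ncard = (A.filter (fun p : ℕ =>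
        ∃ m s : ℕ, (N - p).natAbs = m * s ∧ (m : ℝ) ≤ (X : ℝ) ^ ε ∧ 1 < s ∧
          s.primeFactorsList.length ≤ 2 ∧
          ∀ q ∈ s.primeFactors, (X : ℝ) ^ (1 / 7 : ℝ) < q)).card := by
      rw [← Set.ncard_coe_finset]
      congr 1
      ext p
      simp only [good, Set.mem_ofPred_eq, Finset.coe_filter]
      constructor
      · rintro ⟨h1, m, s, h2, h3, h4, h5, h6⟩
        exact ⟨h1, m, s, h2, h3, h4, h5, fun q hq => h6 q (Nat.prime_of_mem_primeFactors hq)
          (Nat.dvd_of_mem_primeFactors hq)⟩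
      · rintro ⟨h1, m, s, h2, h3, h4, h5, h6⟩
        exact ⟨h1, m, s, h2, h3, h4, h5, fun q hq hd => h6 q
          (Nat.mem_primeFactors.2 ⟨hq, hd, by omega⟩)⟩
    simp only [Set.mem_ofPred_eq, Finset.coe_filter, Finset.mem_Icc, hg, abs_le]
  rw [heq]
  exact ⟨Finset.finite_toSet _, by rw [Set.ncard_coe_finset]; exact h1⟩

/-- (1) For all `δ, ε > 0` there are `c > 0` and `K` such that for every `X ≥ 2` and every set `A` of
at least `δ X / log X` primes up to `X`, for all but at most `K` of the integers `N` with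
`|N| ≤ 2 X`: for at least `c |A|` of the `p ∈ A` the number `|N - p|` is `m s` with `m ≤ X^ε` and
`s` a prime or a product of two primes, all greater than `X^(1/7)`.

(2) For all `δ, ε > 0` there is `K` such that for every set `A` of primes which has at least
`δ X / log X` elements up to `X` for all large `X`, for all but at most `K` of all the integers `h`
there are infinitely many `p ∈ A` such that `|p + h|` is `m s` with `m ≤ p^ε` and `s` a prime or a
product of two primes, all greater than `p^(1/7)`. -/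
theorem result :
    (∀ δ ε : ℝ, 0 < δ → 0 < ε → ∃ (c : ℝ) (K : ℕ), 0 < c ∧ ∀ X : ℕ, 2 ≤ X → ∀ A : Finset ℕ,
      (∀ p ∈ A, p.Prime ∧ p ≤ X) → δ * X / Real.log X ≤ A.card →
      {N : ℤ | |N| ≤ 2 * X ∧ ((good A N X ε).ncard : ℝ) < c * A.card}.Finite ∧
      {N : ℤ | |N| ≤ 2 * X ∧ ((good A N X ε).ncard : ℝ) < c * A.card}.ncard ≤ K) ∧
    (∀ δ ε : ℝ, 0 < δ → 0 < ε → ∃ K : ℕ, ∀ A : Set ℕ, (∀ p ∈ A, p.Prime) →
      (∀ᶠ X : ℕ in atTop, δ * X / Real.log X ≤ ({p : ℕ | p ∈ A ∧ p ≤ X}.ncard : ℝ)) →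
      {h : ℤ | (goodShift A h ε).Finite}.Finite ∧
      {h : ℤ | (goodShift A h ε).Finite}.ncard ≤ K) := by
  classical
  refine ⟨fun δ ε hδ hε => finite_form δ ε hδ hε, ?_⟩
  intro δ ε hδ hε
  obtain ⟨c, K, hc, H⟩ := finite_form δ (ε / 2) hδ (by positivity)
  refine ⟨K, ?_⟩
  intro A hA hden
  -- no `K + 1` exceptional shifts
  have key : ∀ F : Finset ℤ, (↑F : Set ℤ) ⊆ {h : ℤ | (goodShift A h ε).Finite} → F.card ≤ K := by
    intro F hF
    by_contra hcon
    push Not at hcon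
    -- a bound for all elements of the finite sets
    obtain ⟨M, hM⟩ : ∃ M : ℕ, ∀ h ∈ F, ∀ p ∈ goodShift A h ε, p ≤ M := by
      have h1 : ∀ h ∈ F, ∃ M : ℕ, ∀ p ∈ goodShift A h ε, p ≤ M := by
        intro h hh
        obtain ⟨M, hM⟩ := (hF hh : (goodShift A h ε).Finite).bddAbove
        exact ⟨M, fun p hp => hM hp⟩
      choose! M hM using h1
      refine ⟨F.sup M, fun h hh p hp => (hM h hh p hp).trans (Finset.le_sup (f := M) hh)⟩
    -- a large scale
    have hlog : ∀ᶠ X : ℕ in atTop, ((X : ℝ)) ^ (1 / 2 : ℝ) + 1 < c * (δ * X / Real.log X) := by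
      have h2 : Tendsto (fun X : ℕ => (c * δ) * ((X : ℝ) ^ (1 / 4 : ℝ))) atTop atTop :=
        Tendsto.const_mul_atTop (by positivity)
          ((tendsto_rpow_atTop (by norm_num)).comp tendsto_natCast_atTop_atTop)
      have h3 : ∀ᶠ X : ℕ in atTop, Real.log X ≤ (X : ℝ) ^ (1 / 4 : ℝ) := by
        have := (isLittleO_log_rpow_atTop (r := 1 / 4) (by norm_num)).bound
          (show (0 : ℝ) < 1 by norm_num)
        have h4 := tendsto_natCast_atTop_atTop.eventually this
        filter_upwards [h4, eventually_ge_atTop 1] with X hX hX1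
        have hX1' : (1 : ℝ) ≤ X := by exact_mod_cast hX1
        simp only [Real.norm_eq_abs, one_mul] at hX
        rwa [abs_of_nonneg (Real.log_nonneg hX1'), abs_of_nonneg (by positivity)] at hX
      filter_upwards [h2.eventually_gt_atTop 2, h3, eventually_ge_atTop 3] with X hX1 hX2 hX3
      have hX3' : (3 : ℝ) ≤ X := by exact_mod_cast hX3
      have hX0 : (0 : ℝ) < X := by linarith
      have hl : 0 < Real.log X := Real.log_pos (by linarith)
      have h5 : (X : ℝ) ^ (3 / 4 : ℝ) ≤ X / Real.log X := by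
        rw [le_div_iff₀ hl]
        calc (X : ℝ) ^ (3 / 4 : ℝ) * Real.log X ≤ (X : ℝ) ^ (3 / 4 : ℝ) * (X : ℝ) ^ (1 / 4 : ℝ) := by
              gcongr
          _ = X := by
              rw [← Real.rpow_add hX0]
              norm_num
      have h6 : (X : ℝ) ^ (3 / 4 : ℝ) = (X : ℝ) ^ (1 / 2 : ℝ) * (X : ℝ) ^ (1 / 4 : ℝ) := by
        rw [← Real.rpow_add hX0]
        norm_num
      have h7 : (1 : ℝ) ≤ (X : ℝ) ^ (1 / 2 : ℝ) := Real.one_le_rpow (by linarith) (by norm_num)
      calc (X : ℝ) ^ (1 / 2 : ℝ) + 1 ≤ (X : ℝ) ^ (1 / 2 : ℝ) * 2 := by linarith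
        _ < (X : ℝ) ^ (1 / 2 : ℝ) * (c * δ * (X : ℝ) ^ (1 / 4 : ℝ)) := by
            gcongr
        _ = c * δ * (X : ℝ) ^ (3 / 4 : ℝ) := by rw [h6]; ring
        _ ≤ c * δ * (X / Real.log X) := by gcongr
        _ = c * (δ * X / Real.log X) := by ring
    have hsq : ∀ᶠ X : ℕ in atTop, (M : ℝ) < (X : ℝ) ^ (1 / 2 : ℝ) :=
      ((tendsto_rpow_atTop (by norm_num : (0 : ℝ) < 1 / 2)).comp
        tendsto_natCast_atTop_atTop).eventually_gt_atTop _
    have hbig : ∀ᶠ X : ℕ in atTop, ∀ h ∈ F, |h| ≤ 2 * (X : ℤ) := by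
      rw [Filter.eventually_all_finset]
      intro h _
      filter_upwards [eventually_ge_atTop h.natAbs] with X hX
      have : |h| = (h.natAbs : ℤ) := Int.abs_eq_natAbs h
      omega
    obtain ⟨X, hX1, hX2, hX3, hX4, hX5⟩ :=
      (hden.and (hlog.and (hsq.and (hbig.and (eventually_ge_atTop 2))))).exists
    -- the finite set
    have hfin : {p : ℕ | p ∈ A ∧ p ≤ X}.Finite :=
      (Set.finite_Iic X).subset (fun p hp => hp.2)
    obtain ⟨hfinN, hK⟩ := H X hX5 hfin.toFinset (by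
      intro p hp
      rw [Set.Finite.mem_toFinset] at hp
      exact ⟨hA p hp.1, hp.2⟩) (by
      rw [← Set.ncard_eq_toFinset_card _ hfin]
      exact hX1)
    -- some element of `F` is not exceptional
    obtain ⟨h, hh, hgood⟩ : ∃ h ∈ F, c * (hfin.toFinset.card : ℝ) ≤
        ((good hfin.toFinset (-h) X (ε / 2)).ncard : ℝ) := by
      by_contra hno
      push Not at hno
      have hsub : (↑(F.image (fun h : ℤ => -h)) : Set ℤ) ⊆
          {N : ℤ | |N| ≤ 2 * X ∧ ((good hfin.toFinset N X (ε / 2)).ncard : ℝ) <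
            c * hfin.toFinset.card} := by
        intro N hN
        rw [Finset.mem_coe, Finset.mem_image] at hN
        obtain ⟨h, hh, rfl⟩ := hN
        exact ⟨by rw [abs_neg]; exact hX4 h hh, hno h hh⟩
      have h2 := Set.ncard_le_ncard hsub hfinN
      rw [Set.ncard_coe_finset, Finset.card_image_of_injective _ neg_injective] at h2
      omega
    -- a large element of the good set
    have hX0 : (0 : ℝ) < X := by
      have : (2 : ℝ) ≤ X := by exact_mod_cast hX5
      linarith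
    have hcard : (X : ℝ) ^ (1 / 2 : ℝ) + 1 <
        ((good hfin.toFinset (-h) X (ε / 2)).ncard : ℝ) := by
      refine lt_of_lt_of_le hX2 (le_trans ?_ hgood)
      rw [← Set.ncard_eq_toFinset_card _ hfin]
      gcongr
    obtain ⟨p, hp, hpX⟩ : ∃ p ∈ good hfin.toFinset (-h) X (ε / 2),
        (X : ℝ) ^ (1 / 2 : ℝ) < (p : ℝ) := by
      by_contra hno
      push Not at hno
      have hsub : good hfin.toFinset (-h) X (ε / 2) ⊆
          (↑(Finset.range (⌊(X : ℝ) ^ (1 / 2 : ℝ)⌋₊ + 1)) : Set ℕ) := by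
        intro p hp
        rw [Finset.mem_coe, Finset.mem_range]
        have := Nat.le_floor (hno p hp)
        omega
      have h2 := Set.ncard_le_ncard hsub (Finset.finite_toSet _)
      rw [Set.ncard_coe_finset, Finset.card_range] at h2
      have h3 : ((good hfin.toFinset (-h) X (ε / 2)).ncard : ℝ) ≤
          (⌊(X : ℝ) ^ (1 / 2 : ℝ)⌋₊ : ℝ) + 1 := by exact_mod_cast h2
      have h4 := Nat.floor_le (show (0 : ℝ) ≤ (X : ℝ) ^ (1 / 2 : ℝ) by positivity)
      linarith
    obtain ⟨hpA, m, s, h1, h2, h3, h4, h5⟩ := hp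
    rw [Set.Finite.mem_toFinset] at hpA
    have hp0 : (0 : ℝ) ≤ p := Nat.cast_nonneg p
    have hmem : p ∈ goodShift A h ε := by
      refine ⟨hpA.1, m, s, ?_, ?_, h3, h4, ?_⟩
      · rw [← h1]
        have : ((p : ℤ) + h) = -(-h - (p : ℤ)) := by ring
        rw [this, Int.natAbs_neg]
      · refine h2.trans ?_
        calc (X : ℝ) ^ (ε / 2) = ((X : ℝ) ^ (1 / 2 : ℝ)) ^ ε := by
              rw [← Real.rpow_mul hX0.le]
              congr 1
              ring
          _ ≤ (p : ℝ) ^ ε := Real.rpow_le_rpow (by positivity) hpX.le hε.le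
      · intro q hq hd
        refine lt_of_le_of_lt ?_ (h5 q hq hd)
        exact Real.rpow_le_rpow hp0 (by exact_mod_cast hpA.2) (by norm_num)
    have := hM h hh p hmem
    have h6 : (p : ℝ) ≤ M := by exact_mod_cast this
    linarith
  have hfinB : {h : ℤ | (goodShift A h ε).Finite}.Finite := by
    by_contra hinf
    obtain ⟨F, hF, hcard⟩ := (Set.not_finite.1 hinf : Set.Infinite _).exists_subset_card_eq (K + 1)
    have := key F hF
    omega
  refine ⟨hfinB, ?_⟩
  have h1 := key hfinB.toFinset (by simp)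
  rwa [← Set.ncard_eq_toFinset_card _ hfinB] at h1

end Pool.Agent.Results.MP_68a45e_nt.DenseSetsAlmostPrimes
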