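import Pool.Agent.Q26.PD.Tup2

/-!
# The asymptotic formula of Hardy and Littlewood for prime tuples, for almost all rearrangements of the digits of
arbitrary shifts

Definitions used: `Pool.Agent.H373R2.T7.singZ a z`: the partial product over the primes `p ≤ z` of
`(1 - ν(p) / p) / (1 - 1 / p) ^ (s + 1)`, where `ν(p)` is the number of `r < p` for which `p` divides
`r (r + a 1) ... (r + a s)`; `Pool.Agent.H373R2.T7.tupleCount a N`: the sum of
`log p * ∏ i, log (p + a i)` over the primes `p ≤ N` for which all `p + a i` are primes;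
`Pool.Agent.H373R2.T7.Admissible a`: for every prime `p` there is an `r` such that `p` divides neither
`r` nor any `r + a i`; `Pool.Agent.H560R3.GB.primeTuples a N`: the number of primes `p ≤ N` for which
all `p + a i` are primes; in `Pool.Agent.TH872.An`: `Spread b k η d`: the integers `d j` (`j < k`) are digits in
base `b`, and no digit is taken at more than `(1 - η) k` of the `k` places `j`; `V b d σ`: the integer with the
permuted digits, thus the integer with the digit `d (σ j)` at the place `j`, in base `b`.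
-/

set_option autoImplicit false

namespace Pool.Agent.Results.MP_68a45e_nt.DigitPermutationTuples

open Finset Pool.Agent.H560R3.GB
open Pool.Agent.H373R2.T7 (singZ tupleCount Admissible)
open Pool.Agent.TH872.An (Spread V)

/-- The formula of Hardy and Littlewood for the tuple `p, p + a 1, ..., p + a s` and the primes `p ≤ N`: the
singular series converges, its sum `S` predicts the weighted number of prime tuples with an error of
at most `N / log ^ U N`, and, if the shifts are admissible, `S` is positive and `S N / log ^ (s + 1) N`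
predicts the number of prime tuples with a relative error of at most `ε`. -/
def Holds {s : ℕ} (ε : ℝ) (U N : ℕ) (a : Fin s → ℕ) : Prop :=
  ∃ S : ℝ, Filter.Tendsto (fun z => singZ (fun i => (a i : ℤ)) z) Filter.atTop (nhds S) ∧
    |tupleCount (fun i => (a i : ℤ)) N - S * N| ≤ (N : ℝ) / Real.log N ^ U ∧
    (Admissible (fun i => (a i : ℤ)) → 0 < S ∧
      |(primeTuples a N : ℝ) - S * (N / Real.log N ^ (s + 1))| ≤ ε * (S * (N / Real.log N ^ (s + 1))))

open Classical in
/-- Let `s ≥ 1`, bases `b i ≥ 2`, integers `κ i ≥ 1`, `B`, `U` and `ε, η > 0` be fixed. Let `N` be large, and let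
`v 1, ..., v s` be ARBITRARY integers, `v i` with `k i` digits in base `b i` (leading zeros may be added), where
`N ≤ B (b i) ^ (k i)` and `(b i) ^ (k i) ≤ B N`, such that no digit stands at more than `(1 - η) k i` of the `k i` places
of `v i`, and let `0 ≤ c i ≤ B N` be arbitrary integers. Then the formula of Hardy and Littlewood for the primes
`p ≤ N` and the tuple `p, p + a 1, ..., p + a s` with `a i = c i + κ i * v' i` holds for all rearrangements `v' i` of the
digits of the `v i`, with the exception of a proportion of at most `1 / log ^ U N` of the `∏ i, (k i)!` vectors of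
permutations. -/
theorem result (s : ℕ) (hs : 1 ≤ s) (b : Fin s → ℕ) (hb : ∀ i, 2 ≤ b i) (κ : Fin s → ℕ) (hκ : ∀ i, 1 ≤ κ i)
    (B U : ℕ) (ε η : ℝ) (hε : 0 < ε) (hη : 0 < η) :
    ∃ N₀ : ℕ, ∀ N, N₀ ≤ N → ∀ k : Fin s → ℕ, (∀ i, N ≤ B * b i ^ k i ∧ b i ^ k i ≤ B * N) →
      ∀ d : ∀ i, Fin (k i) → ℕ, (∀ i, Spread (b i) (k i) η (d i)) → ∀ c : Fin s → ℕ, (∀ i, c i ≤ B * N) →
      ((univ.filter fun σ : ∀ i, Equiv.Perm (Fin (k i)) =>
        ¬ Holds ε U N (fun i => c i + κ i * V (b i) (d i) (σ i))).card : ℝ) ≤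
      (∏ i, ((k i).factorial : ℝ)) / Real.log N ^ U := by
  classical
  choose B0 h0 using fun i => Pool.Agent.Q26.PD.perm_one (b i) (hb i) (κ i) (hκ i) B (2 * U + 6 + s + 2) η hη
  obtain ⟨Bt, hBt⟩ : ∃ Bt, Bt = ∑ i, B0 i := ⟨_, rfl⟩
  have hBi : ∀ i, B0 i ≤ Bt := fun i => by rw [hBt]; exact single_le_sum (fun _ _ => Nat.zero_le _) (mem_univ i)
  obtain ⟨At, hAt⟩ : ∃ At, At = ∑ i, (B + κ i * B) := ⟨_, rfl⟩
  have hAi : ∀ i, B + κ i * B ≤ At := fun i => by
    rw [hAt]; exact single_le_sum (f := fun i => B + κ i * B) (fun _ _ => Nat.zero_le _) (mem_univ i)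
  choose N1 h1 using fun i => h0 i (Bt + U + s + 6)
  obtain ⟨Nt, hNt⟩ : ∃ Nt, Nt = ∑ i, N1 i := ⟨_, rfl⟩
  have hNi : ∀ i, N1 i ≤ Nt := fun i => by rw [hNt]; exact single_le_sum (fun _ _ => Nat.zero_le _) (mem_univ i)
  obtain ⟨n0, h2⟩ := Pool.Agent.Q26.PD.os_gen s hs κ hκ At Bt U ε hε
  refine ⟨Nt + n0 + 3, fun N hN k hk d hd c hc => ?_⟩
  have hlog1 : 1 ≤ Real.log N := by
    rw [Real.le_log_iff_exp_le (by exact_mod_cast (by omega : 0 < N))]
    have : (3 : ℝ) ≤ N := by exact_mod_cast (by omega : 3 ≤ N)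
    linarith [Real.exp_one_lt_d9]
  have hlog0 : 0 < Real.log N := by linarith
  have h3 := fun i => h1 i N (by have := hNi i; omega) (k i) (hk i).1 (hk i).2 (d i) (hd i) (c i) (hc i)
  have h4 := h2 N (by omega) c
    (fun i => (univ : Finset (Equiv.Perm (Fin (k i)))).image (fun σ => V (b i) (d i) σ))
    (fun i => Pool.Agent.Q26.PD.pf (univ : Finset (Equiv.Perm (Fin (k i)))) (fun _ => 1 / ((k i).factorial : ℝ))
      (fun σ => V (b i) (d i) σ))
    (fun i v _ => Pool.Agent.Q26.PD.pf_nonneg _ _ (fun _ _ => by positivity) _ v)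
    (fun i => by
      have h5 := Pool.Agent.Q26.PD.pf_one (univ : Finset (Equiv.Perm (Fin (k i)))) (fun _ => 1 / ((k i).factorial : ℝ))
        (by
          rw [sum_const, card_univ, Fintype.card_perm, Fintype.card_fin, nsmul_eq_mul, mul_one_div, div_self]
          exact_mod_cast (k i).factorial_ne_zero) (fun σ => V (b i) (d i) σ)
      convert h5)
    (fun i v _ => (h3 i).1 v)
    (fun i v hv => by
      rw [mem_image] at hv
      obtain ⟨σ, _, rfl⟩ := hv
      exact ((h3 i).2.1 σ).trans (Nat.mul_le_mul_right _ (hAi i)))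
    (fun i z hz1 hz2 Kc hKc G hG => by
      have h5 := (h3 i).2.2 z ((pow_le_pow_right₀ hlog1 (hBi i)).trans hz1) hz2 Kc hKc G hG
      convert h5)
  have h5 := Pool.Agent.Q26.PD.pf_pi (fun i => Equiv.Perm (Fin (k i))) (fun i => (univ : Finset (Equiv.Perm (Fin (k i)))))
    (fun i _ => 1 / ((k i).factorial : ℝ)) (fun i σ => V (b i) (d i) σ)
    (fun m => ¬ Holds ε U N (fun i => c i + κ i * m i))
  have h6 : ∑ x : ∀ i, Equiv.Perm (Fin (k i)), (if ¬ Holds ε U N (fun i => c i + κ i * V (b i) (d i) (x i)) then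
      ∏ i, 1 / ((k i).factorial : ℝ) else 0) ≤ 1 / Real.log N ^ U := by
    rw [← Fintype.piFinset_univ]
    refine le_trans (le_of_eq ?_) (h5.symm.le.trans (le_trans (le_of_eq ?_) h4))
    · apply sum_congr rfl
      intro x _
      split_ifs <;> rfl
    · apply sum_congr _ _
      · congr 1
      · intro x _
        by_cases hB : Holds ε U N (fun i => c i + κ i * x i)
        · rw [if_neg (not_not.2 hB), if_neg (not_not.2 (show Pool.Agent.W93.TD.HLs ε U N _ from hB))]
        · rw [if_pos hB, if_pos (show ¬ Pool.Agent.W93.TD.HLs ε U N _ from hB)]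
  have hpos : (0 : ℝ) < ∏ i, ((k i).factorial : ℝ) := prod_pos fun i _ => by exact_mod_cast (k i).factorial_pos
  rw [← sum_filter, sum_const, nsmul_eq_mul, prod_div_distrib, prod_const_one, mul_one_div,
    div_le_div_iff₀ hpos (by positivity), one_mul] at h6
  rw [le_div_iff₀ (by positivity)]
  convert h6

end Pool.Agent.Results.MP_68a45e_nt.DigitPermutationTuples
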