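import Pool.Agent.Q20.AS.Main

/-!
# Arbitrary systems of `C log X` linear forms take composite values simultaneously in all short intervals

The prime tuples conjecture deals with a bounded number of shifts. Here the number of the shifts, or more generally of the
linear forms `u n + v`, is `C log X` with an arbitrarily large constant `C`, so that (in the mean over `n`) about `C` of the values
should be prime. Whatever the forms are, every interval of length `X ^ δ` contains an `n`, even in a given residue class,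
for which none of the values is prime.
-/

set_option autoImplicit false

open Finset Filter

namespace Pool.Agent.Results.MP_68a45e_nt.LogarithmicallyManyForms

/-- The linear form `u n + v`, given as the pair `(u, v)`, has `u ≥ 1`, all prime factors of `u` are at most `J`, and
`u` and `|v|` are at most `T`. -/
def Form (J T : ℕ) (l : ℕ × ℤ) : Prop :=
  1 ≤ l.1 ∧ (∀ p : ℕ, p.Prime → p ∣ l.1 → p ≤ J) ∧ l.1 ≤ T ∧ |l.2| ≤ (T : ℤ)

/-- `m` is divisible by a prime `p ≤ z` and `p < |m|`; in particular `|m|` is not a prime. -/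
def SmallFactor (z : ℝ) (m : ℤ) : Prop := ∃ p : ℕ, p.Prime ∧ (p : ℝ) ≤ z ∧ (p : ℤ) ∣ m ∧ (p : ℤ) < |m|

lemma SmallFactor.not_prime {z : ℝ} {m : ℤ} (h : SmallFactor z m) : ¬ (m.natAbs).Prime := by
  rintro hm
  obtain ⟨p, hp, -, hd, hlt⟩ := h
  have e1 : p ∣ m.natAbs := Int.natCast_dvd.mp hd
  rcases (Nat.dvd_prime hm).1 e1 with h | h
  · exact hp.one_lt.ne' h
  · rw [h, Int.natCast_natAbs] at hlt
    exact lt_irrefl _ hlt

lemma main (C δ : ℝ) (J K : ℕ) (hδ : 0 < δ) : ∃ X₀ : ℕ, ∀ X : ℕ, X₀ ≤ X → ∀ L : Finset (ℕ × ℤ),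
    (∀ l ∈ L, Form J (X ^ K) l) → (L.card : ℝ) ≤ C * Real.log X →
    ∀ y q r : ℕ, y ≤ X ^ K → 1 ≤ q → q ≤ J → ∃ n : ℕ, y ≤ n ∧ (n : ℝ) ≤ y + (X : ℝ) ^ δ ∧ n ≡ r [MOD q] ∧
      ∀ l ∈ L, SmallFactor ((X : ℝ) ^ δ) ((l.1 : ℤ) * (n : ℤ) + l.2) := by
  obtain ⟨X₀, h⟩ := Pool.Agent.Q20.AS.forms C δ (J + 1) K hδ (by omega)
  refine ⟨X₀, fun X hX L hL hLc y q r hy hq hqJ => ?_⟩
  obtain ⟨n, h1, h2, h3, -, h5⟩ := h X hX L (fun l hl => by
    obtain ⟨a1, a2, a3, a4⟩ := hL l hl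
    refine ⟨a1, fun p hp hpd => (a2 p hp hpd).trans (by omega), a3, ?_⟩
    exact_mod_cast a4) hLc y q r hy hq (by omega) ∅ (by
      rw [card_empty, Nat.cast_zero]; positivity)
  exact ⟨n, h1, h2, h3, h5⟩

/-- Let `C`, `δ > 0`, `J`, `K` be fixed.

(1) For all `X ≥ X₀`, ALL sets `H` of at most `C log X` integers `|h| ≤ X ^ K` and all classes `r` modulo `q ≤ J`: every interval
`[y, y + X ^ δ]`, `y ≤ X ^ K`, contains an `n ≡ r (mod q)` such that none of the numbers `|n + h|`, `h ∈ H`, is a prime.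

(2) The same holds for ALL systems of at most `C log X` linear forms `u n + v` with `|v| ≤ X ^ K` and `1 ≤ u ≤ X ^ K`, the prime
factors of `u` being at most `J`; moreover each of the values has a prime factor `≤ X ^ δ` smaller than the value.

(3) For example, for arbitrary integers `c i`, `|c i| ≤ X ^ K`, `i < k`, where `k ≤ C log X`, every interval of this kind
contains an `n` such that none of the numbers `|n + c 0|, |2 n + c 1|, ..., |2 ^ (k - 1) n + c (k - 1)|` is a prime. -/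
theorem result (C δ : ℝ) (J K : ℕ) (hδ : 0 < δ) :
    (∃ X₀ : ℕ, ∀ X : ℕ, X₀ ≤ X → ∀ H : Finset ℤ, (∀ h ∈ H, |h| ≤ (X : ℤ) ^ K) →
      (H.card : ℝ) ≤ C * Real.log X → ∀ y q r : ℕ, y ≤ X ^ K → 1 ≤ q → q ≤ J →
      ∃ n : ℕ, y ≤ n ∧ (n : ℝ) ≤ y + (X : ℝ) ^ δ ∧ n ≡ r [MOD q] ∧ ∀ h ∈ H, ¬ ((n : ℤ) + h).natAbs.Prime) ∧
    (∃ X₀ : ℕ, ∀ X : ℕ, X₀ ≤ X → ∀ L : Finset (ℕ × ℤ), (∀ l ∈ L, Form J (X ^ K) l) →
      (L.card : ℝ) ≤ C * Real.log X → ∀ y q r : ℕ, y ≤ X ^ K → 1 ≤ q → q ≤ J →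
      ∃ n : ℕ, y ≤ n ∧ (n : ℝ) ≤ y + (X : ℝ) ^ δ ∧ n ≡ r [MOD q] ∧
        ∀ l ∈ L, SmallFactor ((X : ℝ) ^ δ) ((l.1 : ℤ) * (n : ℤ) + l.2) ∧
          ¬ ((l.1 : ℤ) * (n : ℤ) + l.2).natAbs.Prime) ∧
    (∃ X₀ : ℕ, ∀ X : ℕ, X₀ ≤ X → ∀ k : ℕ, (k : ℝ) ≤ C * Real.log X → ∀ c : ℕ → ℤ,
      (∀ i < k, |c i| ≤ (X : ℤ) ^ K) → ∀ y : ℕ, y ≤ X ^ K →
      ∃ n : ℕ, y ≤ n ∧ (n : ℝ) ≤ y + (X : ℝ) ^ δ ∧ ∀ i < k, ¬ (2 ^ i * (n : ℤ) + c i).natAbs.Prime) := by
  classical
  refine ⟨?_, ?_, ?_⟩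
  · obtain ⟨X₀, h⟩ := main C δ J K hδ
    refine ⟨X₀ + 1, fun X hX H hH hHc y q r hy hq hqJ => ?_⟩
    obtain ⟨n, h1, h2, h3, h4⟩ := h X (by omega) (H.image (fun h => (1, h))) (by
      intro l hl
      rw [mem_image] at hl
      obtain ⟨a, ha, rfl⟩ := hl
      refine ⟨le_rfl, ?_, Nat.one_le_pow _ _ (by omega), by exact_mod_cast hH a ha⟩
      intro p hp hpd
      exact absurd (Nat.le_of_dvd one_pos hpd) (not_le.2 hp.one_lt)) (by
      refine le_trans ?_ hHc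
      exact_mod_cast card_image_le) y q r hy hq hqJ
    refine ⟨n, h1, h2, h3, fun a ha => ?_⟩
    have h5 := h4 (1, a) (mem_image_of_mem _ ha)
    simp only [Nat.cast_one, one_mul] at h5
    exact h5.not_prime
  · obtain ⟨X₀, h⟩ := main C δ J K hδ
    refine ⟨X₀, fun X hX L hL hLc y q r hy hq hqJ => ?_⟩
    obtain ⟨n, h1, h2, h3, h4⟩ := h X hX L hL hLc y q r hy hq hqJ
    exact ⟨n, h1, h2, h3, fun l hl => ⟨h4 l hl, (h4 l hl).not_prime⟩⟩
  · set D : ℕ := ⌈C⌉₊ with hD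
    have hCD : C ≤ D := Nat.le_ceil _
    obtain ⟨X₀, h⟩ := main C δ 2 (K + D) hδ
    refine ⟨X₀ + 3, fun X hX k hk c hc y hy => ?_⟩
    have hX1 : 1 ≤ X := by omega
    have hXr : (1 : ℝ) ≤ X := by exact_mod_cast hX1
    have hle : X ^ K ≤ X ^ (K + D) := Nat.pow_le_pow_right hX1 (by omega)
    have h2i : ∀ i < k, 2 ^ i ≤ X ^ (K + D) := by
      intro i hi
      have hi1 : (i : ℝ) ≤ D * Real.log X := by
        have e1 : (i : ℝ) ≤ k := by exact_mod_cast hi.le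
        have e2 : C * Real.log X ≤ D * Real.log X :=
          mul_le_mul_of_nonneg_right hCD (Real.log_nonneg hXr)
        linarith
      have e3 : (2 : ℝ) ^ i ≤ (X : ℝ) ^ D := by
        calc (2 : ℝ) ^ i ≤ Real.exp 1 ^ i := by
              refine pow_le_pow_left₀ (by norm_num) ?_ i
              have := Real.exp_one_gt_d9
              linarith
          _ = Real.exp (i : ℝ) := by rw [← Real.exp_nat_mul, mul_one]
          _ ≤ Real.exp (D * Real.log X) := Real.exp_le_exp.2 hi1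
          _ = (X : ℝ) ^ D := by
              rw [mul_comm, Real.exp_mul, Real.exp_log (by linarith), Real.rpow_natCast]
      have e4 : 2 ^ i ≤ X ^ D := by exact_mod_cast e3
      exact e4.trans (Nat.pow_le_pow_right hX1 (by omega))
    obtain ⟨n, h1, h2, -, h4⟩ := h X (by omega) ((range k).image (fun i => (2 ^ i, c i))) (by
      intro l hl
      rw [mem_image] at hl
      obtain ⟨i, hi, rfl⟩ := hl
      rw [mem_range] at hi
      refine ⟨Nat.one_le_two_pow, ?_, h2i i hi, ?_⟩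
      · intro p hp hpd
        exact Nat.le_of_dvd two_pos (hp.dvd_of_dvd_pow hpd)
      · refine (hc i hi).trans ?_
        exact_mod_cast hle) (by
      refine le_trans ?_ hk
      have := card_image_le (s := range k) (f := fun i => ((2 ^ i, c i) : ℕ × ℤ))
      rw [card_range] at this
      exact_mod_cast this) y 1 0 (hy.trans hle) le_rfl (by omega)
    refine ⟨n, h1, h2, fun i hi => ?_⟩
    have h5 := h4 (2 ^ i, c i) (mem_image_of_mem (fun i => ((2 ^ i, c i) : ℕ × ℤ)) (mem_range.2 hi))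
    simp only [Nat.cast_pow, Nat.cast_ofNat] at h5
    exact h5.not_prime

end Pool.Agent.Results.MP_68a45e_nt.LogarithmicallyManyForms
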