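import Pool.Agent.Q51.CP.Col

/-!
# Prime patterns in partitions of the primes

Divide the primes into finitely many classes, in an arbitrary way. Then every infinite set of integers
contains an infinite set `B` such that for one of the classes EVERY subset of `B` (finite or infinite)
is an exact pattern of this class: for every `R` there are infinitely many `n` for which the primes of
this class within distance `R` of `n` are exactly the numbers `n + y`, `y` in the subset, `|y| ≤ R`.
The same holds for countably many partitions, countably many injective maps into the integers and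
countably many residue classes at the same time.

The infinite exact pattern theorem of the starting files (`Pool.Agent.H361R2.Inf.exact_infinite`) is
combined with a limit along an ultrafilter, which divides an exact pattern of primes into exact
patterns of the classes, Ellentuck's theorem (`Pool.Agent.H38R3.Ell`), used once for each class, and a
diagonal argument as in `Pool.Agent.W68.Her` (the case of one class).
-/

set_option autoImplicit false

namespace Pool.Agent.Results.MP_68a45e_nt.PartitionsOfThePrimes

/-- For every `j` let the primes be divided into finitely many classes `P j i`, `i < k j` (which may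
overlap), let `φ j` be an injective map from the natural numbers to the integers, and `r j` a residue
modulo `q j`. There are `b 0 < b 1 < …` and for every `j` a class `P j i` such that for every set
`I` (finite or infinite) of indices `a ≥ j` with `r j + φ j (b a)` prime to `q j`, and every `R`, there
are infinitely many `n ≡ r j` modulo `q j` such that for all `y` with `|y| ≤ R`: `n + y` is an element
of `P j i` if and only if `y = φ j (b a)` for some `a ∈ I`. -/
theorem result (k : ℕ → ℕ) (hk : ∀ j, 0 < k j) (P : ∀ j, Fin (k j) → Set ℕ)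
    (hP1 : ∀ j i, ∀ p ∈ P j i, p.Prime) (hP2 : ∀ j, ∀ p : ℕ, p.Prime → ∃ i, p ∈ P j i)
    (φ : ℕ → ℕ → ℤ) (hφ : ∀ j, Function.Injective (φ j)) (q : ℕ → ℕ)
    (hq : ∀ j, 1 ≤ q j) (r : ℕ → ℤ) :
    ∃ b : ℕ → ℕ, StrictMono b ∧ ∀ j : ℕ, ∃ i : Fin (k j), ∀ I : Set ℕ,
      (∀ a ∈ I, j ≤ a ∧ IsCoprime (r j + φ j (b a)) (q j : ℤ)) →
      ∀ R : ℕ, {n : ℕ | (n : ℤ) ≡ r j [ZMOD q j] ∧
        ∀ y : ℤ, |y| ≤ R → ((∃ p ∈ P j i, (p : ℤ) = n + y) ↔ ∃ a ∈ I, φ j (b a) = y)}.Infinite := by
  obtain ⟨b, hb, h⟩ := Pool.Agent.Q51.CP.Col.main_shiftsC φ hφ q hq r k hk P hP1 hP2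
  refine ⟨b, hb, fun j => ?_⟩
  obtain ⟨i, hi⟩ := h j
  refine ⟨i, fun I hI R => ?_⟩
  refine (hi I hI R).mono ?_
  rintro n ⟨hn1, hn2⟩
  refine ⟨hn1, fun y hy => ?_⟩
  rw [← hn2 y hy]
  constructor
  · rintro ⟨p, hp, hpe⟩
    rw [← hpe]
    simpa using hp
  · intro hp
    refine ⟨_, hp, ?_⟩
    have h1 := (hP1 j i _ hp).pos
    omega

end Pool.Agent.Results.MP_68a45e_nt.PartitionsOfThePrimes
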